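import Pool.Agent.Helper28_TP.StS

/-!
# DU1 (helper7): a cluster started in the middle of the left side of a square
-/

set_option autoImplicit false

namespace Pool.Agent.TP.H7

open Pool.Agent.TP
open Pool.Agent.Helper33_FPP (Z2 dst Rect)

/-- joined inside `S` -/
def Con (S : Set (ℤ × ℤ)) (x y : ℤ × ℤ) : Prop := ∃ q : Z2.Walk x y, ∀ v ∈ q.support, v ∈ S

theorem con_refl {S : Set (ℤ × ℤ)} {x : ℤ × ℤ} (h : x ∈ S) : Con S x x :=
  ⟨SimpleGraph.Walk.nil, by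
    intro v hv
    have : v = x := by simpa using hv
    rw [this]; exact h⟩

theorem con_symm {S : Set (ℤ × ℤ)} {x y : ℤ × ℤ} (h : Con S x y) : Con S y x := by
  obtain ⟨q, hq⟩ := h
  exact ⟨q.reverse, fun v hv => hq v (by simpa using hv)⟩

theorem con_trans {S : Set (ℤ × ℤ)} {x y z : ℤ × ℤ} (h : Con S x y) (h' : Con S y z) :
    Con S x z := by
  obtain ⟨q, hq⟩ := h
  obtain ⟨r, hr⟩ := h'
  refine ⟨q.append r, fun v hv => ?_⟩
  rw [SimpleGraph.Walk.mem_support_append_iff] at hv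
  rcases hv with hv | hv
  · exact hq v hv
  · exact hr v hv

theorem con_step {S : Set (ℤ × ℤ)} {x y : ℤ × ℤ} (hx : x ∈ S) (hy : y ∈ S) (h : Z2.Adj x y) :
    Con S x y := by
  refine ⟨SimpleGraph.Walk.cons h SimpleGraph.Walk.nil, fun v hv => ?_⟩
  have : v = x ∨ v = y := by simpa using hv
  rcases this with rfl | rfl
  · exact hx
  · exact hy

theorem vert_nat {S : Set (ℤ × ℤ)} (x y : ℤ) (n : ℕ)
    (h : ∀ z, y ≤ z → z ≤ y + n → (x, z) ∈ S) : Con S (x, y) (x, y + n) := by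
  induction n with
  | zero =>
    have := con_refl (h y le_rfl (by simp))
    simpa using this
  | succ n ih =>
    have h1 := ih fun z hz hz' => h z hz (by push_cast; omega)
    refine con_trans h1 (con_step (h _ (by omega) (by push_cast; omega))
      (h _ (by push_cast; omega) (by push_cast; omega)) ?_)
    rw [Pool.Agent.Helper33_FPP.Z2_adj_iff]
    push_cast
    omega

theorem hor_nat {S : Set (ℤ × ℤ)} (x y : ℤ) (n : ℕ)
    (h : ∀ z, x ≤ z → z ≤ x + n → (z, y) ∈ S) : Con S (x, y) (x + n, y) := by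
  induction n with
  | zero =>
    have := con_refl (h x le_rfl (by simp))
    simpa using this
  | succ n ih =>
    have h1 := ih fun z hz hz' => h z hz (by push_cast; omega)
    refine con_trans h1 (con_step (h _ (by omega) (by push_cast; omega))
      (h _ (by push_cast; omega) (by push_cast; omega)) ?_)
    rw [Pool.Agent.Helper33_FPP.Z2_adj_iff]
    push_cast
    omega

theorem vert {S : Set (ℤ × ℤ)} (x y y' : ℤ)
    (h : ∀ z, (y ≤ z ∧ z ≤ y') ∨ (y' ≤ z ∧ z ≤ y) → (x, z) ∈ S) : Con S (x, y) (x, y') := by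
  rcases le_total y y' with h1 | h1
  · obtain ⟨n, hn⟩ := Int.eq_ofNat_of_zero_le (sub_nonneg.2 h1)
    have h2 := vert_nat (S := S) x y n fun z hz hz' => h z (Or.inl ⟨hz, by omega⟩)
    rwa [show y + (n : ℤ) = y' by omega] at h2
  · obtain ⟨n, hn⟩ := Int.eq_ofNat_of_zero_le (sub_nonneg.2 h1)
    have h2 := vert_nat (S := S) x y' n fun z hz hz' => h z (Or.inr ⟨hz, by omega⟩)
    rw [show y' + (n : ℤ) = y by omega] at h2
    exact con_symm h2

theorem hor {S : Set (ℤ × ℤ)} (x x' y : ℤ)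
    (h : ∀ z, (x ≤ z ∧ z ≤ x') ∨ (x' ≤ z ∧ z ≤ x) → (z, y) ∈ S) : Con S (x, y) (x', y) := by
  rcases le_total x x' with h1 | h1
  · obtain ⟨n, hn⟩ := Int.eq_ofNat_of_zero_le (sub_nonneg.2 h1)
    have h2 := hor_nat (S := S) x y n fun z hz hz' => h z (Or.inl ⟨hz, by omega⟩)
    rwa [show x + (n : ℤ) = x' by omega] at h2
  · obtain ⟨n, hn⟩ := Int.eq_ofNat_of_zero_le (sub_nonneg.2 h1)
    have h2 := hor_nat (S := S) x' y n fun z hz hz' => h z (Or.inr ⟨hz, by omega⟩)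
    rw [show x' + (n : ℤ) = x by omega] at h2
    exact con_symm h2

/-- intermediate values of a function which changes by at most one along the steps -/
theorem ivt {T : Finset (ℤ × ℤ)} (f : ℤ × ℤ → ℤ) (hf : ∀ u v, dst u v ≤ 1 → f v ≤ f u + 1)
    {u v : ℤ × ℤ} (hu : u ∈ T)
    (h : Relation.ReflTransGen (fun u v => v ∈ T ∧ dst u v ≤ 1) u v) :
    ∀ c, f u ≤ c → c ≤ f v → ∃ w ∈ T, f w = c := by
  induction h with
  | refl =>
    intro c h1 h2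
    exact ⟨u, hu, le_antisymm h1 h2⟩
  | @tail b v _ hbv ih =>
    intro c h1 h2
    by_cases h3 : c ≤ f b
    · exact ih c h1 h3
    · have := hf b v hbv.2
      exact ⟨v, hbv.1, by omega⟩

theorem card_of_values {T : Finset (ℤ × ℤ)} (hT : SC T) (f : ℤ × ℤ → ℤ)
    (hf : ∀ u v, dst u v ≤ 1 → f v ≤ f u + 1) {u v : ℤ × ℤ} (hu : u ∈ T) (hv : v ∈ T) :
    f v - f u + 1 ≤ T.card := by
  have h1 : Finset.Icc (f u) (f v) ⊆ T.image f := by
    intro c hc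
    rw [Finset.mem_Icc] at hc
    obtain ⟨w, hw, hw'⟩ := ivt f hf hu (hT u hu v hv) c hc.1 hc.2
    exact Finset.mem_image.2 ⟨w, hw, hw'⟩
  have h2 := (Finset.card_le_card h1).trans Finset.card_image_le
  rw [Int.card_Icc] at h2
  omega

theorem dst_le_one {u v : ℤ × ℤ} (h : dst u v ≤ 1) : v.1 ≤ u.1 + 1 ∧ u.1 ≤ v.1 + 1 ∧
    v.2 ≤ u.2 + 1 ∧ u.2 ≤ v.2 + 1 := by
  unfold Pool.Agent.Helper33_FPP.dst at h
  rw [max_le_iff] at h
  omega

theorem main (hSep : SepStmt) (hSubt : SubtStmt) (x₀ : ℤ) (h : ℕ) (C : Set (ℤ × ℤ))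
    (F : Finset (ℤ × ℤ)) (hh : 1 ≤ h) (hCR : C ⊆ Rect (x₀, 0) (x₀ + 2 * h, 2 * h)) (hC : ZC C)
    (ho : (x₀, (h : ℤ)) ∈ C)
    (hF : ∀ u ∈ C, ∀ v ∈ Rect (x₀, 0) (x₀ + 2 * h, 2 * h), Z2.Adj u v → v ∈ C ∨ v ∈ F)
    (g : ℤ) (hg : g = 1 ∨ g = -1) (hmiss : ∀ u ∈ C, u.2 ≠ h + g * h) :
    ∃ j : ℕ, 1 ≤ j ∧ j ≤ h ∧ ∃ T ⊆ F, T.card = j ∧ SC T ∧ (x₀, (h : ℤ) + g * j) ∈ T := by
  set R : Set (ℤ × ℤ) := Rect (x₀, 0) (x₀ + 2 * h, 2 * h) with hR
  have memR : ∀ v : ℤ × ℤ, v ∈ R ↔ x₀ ≤ v.1 ∧ v.1 ≤ x₀ + 2 * h ∧ 0 ≤ v.2 ∧ v.2 ≤ 2 * h := by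
    intro v
    rw [hR]
    exact Iff.rfl
  -- the opposite row
  let K : Set (ℤ × ℤ) := {v | v ∈ R ∧ v.2 = h + g * h}
  have hKR : K ⊆ R := fun v hv => hv.1
  have hKC : Disjoint C K := by
    rw [Set.disjoint_left]
    intro v hv hv'
    exact hmiss v hv hv'.2
  have hKne : ((x₀, (h : ℤ) + g * h) : ℤ × ℤ) ∈ K := by
    refine ⟨(memR _).2 ?_, rfl⟩
    rcases hg with rfl | rfl <;> simp <;> omega
  have hKne' : ((x₀ + 2 * h, (h : ℤ) + g * h) : ℤ × ℤ) ∈ K := by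
    refine ⟨(memR _).2 ?_, rfl⟩
    rcases hg with rfl | rfl <;> simp <;> omega
  have hKc : ZC K := by
    rintro ⟨x, y⟩ hx ⟨x', y'⟩ hy
    have e1 : y = h + g * h := hx.2
    have e2 : y' = h + g * h := hy.2
    have h1 := (memR _).1 hx.1
    have h2 := (memR _).1 hy.1
    subst e1
    subst e2
    refine hor x x' _ fun z hz => ⟨(memR _).2 ?_, rfl⟩
    simp only at h1 h2 ⊢
    rcases hg with rfl | rfl <;> omega
  obtain ⟨T, hTF, hT, hTL⟩ := hSep (x₀, 0) (x₀ + 2 * h, 2 * h) C K ↑F hCR hKR hKC ⟨_, ho⟩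
    ⟨_, hKne⟩ hC hKc (fun u hu v hv ha => hF u hu v hv ha)
  -- the column
  let L₁ : Set (ℤ × ℤ) := {v | v ∈ R ∧ v.1 = x₀ ∧ 0 ≤ g * (v.2 - h)}
  have hL₁ : ZC L₁ := by
    rintro ⟨x, y⟩ hx ⟨x', y'⟩ hy
    have e1 : x = x₀ := hx.2.1
    have e2 : x' = x₀ := hy.2.1
    have h1 := (memR _).1 hx.1
    have h2 := (memR _).1 hy.1
    have h3 := hx.2.2
    have h4 := hy.2.2
    subst e1
    subst e2
    refine vert _ y y' fun z hz => ⟨(memR _).2 ?_, rfl, ?_⟩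
    · simp only at h1 h2 ⊢
      omega
    · simp only at h3 h4 ⊢
      rcases hg with rfl | rfl <;> omega
  obtain ⟨v₀, hv₀, hv₀L⟩ := hTL L₁ (fun v hv => hv.1) hL₁
    ⟨(x₀, (h : ℤ)), ⟨hCR ho, rfl, by simp⟩, ho⟩
    ⟨(x₀, (h : ℤ) + g * h), ⟨hKR hKne, rfl, by
      rcases hg with rfl | rfl <;> simp⟩, hKne⟩
  have hv₀C : v₀ ∉ C := (hTF hv₀).2
  have hv₀R := (memR _).1 hv₀L.1
  have hv₀2 : v₀.2 ≠ h := by
    intro e
    apply hv₀C
    have : v₀ = (x₀, (h : ℤ)) := Prod.ext hv₀L.2.1 e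
    rw [this]; exact ho
  have hv₀3 := hv₀L.2.2
  -- the index j
  obtain ⟨j, hj⟩ : ∃ j : ℕ, v₀.2 = h + g * j ∧ 1 ≤ j ∧ j ≤ h := by
    refine ⟨(v₀.2 - h).natAbs, ?_⟩
    rcases hg with rfl | rfl <;> omega
  have hv₀e : v₀ = (x₀, (h : ℤ) + g * j) := Prod.ext hv₀L.2.1 hj.1
  have hTF' : T ⊆ F := fun v hv => by
    have := (hTF hv).1.1
    simpa using this
  by_cases hcard : j ≤ T.card
  · obtain ⟨T', hT'T, hv', hc', hS'⟩ := hSubt T v₀ j hT hv₀ hj.2.1 hcard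
    exact ⟨j, hj.2.1, hj.2.2, T', hT'T.trans hTF', hc', hS', hv₀e ▸ hv'⟩
  · exfalso
    push Not at hcard
    -- row h and the right column
    let L₂ : Set (ℤ × ℤ) := {v | v ∈ R ∧ (v.2 = h ∨ (v.1 = x₀ + 2 * h ∧ 0 ≤ g * (v.2 - h)))}
    have hcor : ((x₀ + 2 * h, (h : ℤ)) : ℤ × ℤ) ∈ L₂ := by
      refine ⟨(memR _).2 ?_, Or.inl rfl⟩
      simp only
      omega
    have hcon : ∀ v ∈ L₂, Con L₂ v (x₀ + 2 * h, (h : ℤ)) := by
      rintro ⟨x, y⟩ ⟨hx, hx'⟩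
      have h1 := (memR _).1 hx
      simp only at h1 hx'
      rcases hx' with rfl | ⟨rfl, h2⟩
      · refine hor x _ _ fun z hz => ⟨(memR _).2 ?_, Or.inl rfl⟩
        simp only
        omega
      · refine vert _ y _ fun z hz => ⟨(memR _).2 ?_, Or.inr ⟨rfl, ?_⟩⟩
        · simp only
          omega
        · simp only
          rcases hg with rfl | rfl <;> omega
    have hL₂ : ZC L₂ := fun x hx y hy => con_trans (hcon x hx) (con_symm (hcon y hy))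
    obtain ⟨v₁, hv₁, hv₁L⟩ := hTL L₂ (fun v hv => hv.1) hL₂
      ⟨(x₀, (h : ℤ)), ⟨hCR ho, Or.inl rfl⟩, ho⟩
      ⟨(x₀ + 2 * h, (h : ℤ) + g * h), ⟨hKR hKne', Or.inr ⟨rfl, by
        rcases hg with rfl | rfl <;> simp⟩⟩, hKne'⟩
    rcases hv₁L.2 with h1 | h1
    · have h2 := card_of_values hT (fun v => g * v.2) (by
        intro u v huv
        have := dst_le_one huv
        rcases hg with rfl | rfl <;> simp <;> omega) hv₁ hv₀
      simp only [h1, hj.1] at h2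
      rcases hg with rfl | rfl <;> omega
    · have h2 := card_of_values hT (fun v => v.1) (by
        intro u v huv
        have := dst_le_one huv
        simp; omega) hv₀ hv₁
      simp only [h1.1, hv₀L.2.1] at h2
      omega

theorem du1 (hSep : SepStmt) (hSubt : SubtStmt) : Du1Stmt := by
  intro x₀ h C F hh hCR hC ho hF
  by_cases h0 : ∃ u ∈ C, u.2 = 0
  · by_cases h1 : ∃ u ∈ C, u.2 = 2 * (h : ℤ)
    · exact Or.inl ⟨h0, h1⟩
    · right
      push Not at h1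
      obtain ⟨j, hj1, hj2, T, hTF, hc, hS, hv⟩ := main hSep hSubt x₀ h C F hh hCR hC ho hF 1
        (Or.inl rfl) (fun u hu e => h1 u hu (by rw [e]; ring))
      exact ⟨j, hj1, hj2, T, hTF, hc, hS, Or.inl (by simpa using hv)⟩
  · right
    push Not at h0
    obtain ⟨j, hj1, hj2, T, hTF, hc, hS, hv⟩ := main hSep hSubt x₀ h C F hh hCR hC ho hF (-1)
      (Or.inr rfl) (fun u hu e => h0 u hu (by rw [e]; ring))
    refine ⟨j, hj1, hj2, T, hTF, hc, hS, Or.inr ?_⟩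
    have e : (h : ℤ) + -1 * j = h - j := by ring
    rwa [e] at hv

end Pool.Agent.TP.H7
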